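import Pool.Agent.Helper13.PGL.Main

/-!
Subgroups of order at most two of `PGL_2(F)`, `F` of odd characteristic: conclusion.
-/

namespace Pool.Agent.Helper13.PGL

open Finset Matrix Pool.Agent.Helper13.Ded Matrix.ProjGenLinGroup Pool.Agent.Helper13.Alt

variable {F : Type*} [Field F] [Fintype F] [DecidableEq F]

variable (hF : ringChar F ≠ 2) {ϑ : Matrix.ProjGenLinGroup (Fin 2) F → ℝ} (hϑ : HP ϑ)

include hF in
/-- norms represent a nonsquare -/
lemma exists_norm_nsq (ν : F) (hν : qc ν = -1) :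
    ∃ x y : F, x ^ 2 - ν * y ^ 2 ≠ 0 ∧ qc (x ^ 2 - ν * y ^ 2) = -1 := by
  have hν0 : ν ≠ 0 := by
    rintro rfl
    rw [qc_zero] at hν
    norm_num at hν
  by_contra hcon
  push Not at hcon
  have h1 := sum_norm hF ν hν0 qc
  rw [sum_qc hF, qc_zero, mul_zero, mul_zero, add_zero] at h1
  have h2 : ∀ x y : F, 0 ≤ qc (x ^ 2 - ν * y ^ 2) := by
    intro x y
    by_cases h : x ^ 2 - ν * y ^ 2 = 0
    · rw [h, qc_zero]
    · rcases qc_cases h with h3 | h3
      · rw [h3]; norm_num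
      · exact absurd h3 (hcon x y h)
  have h3 : (1 : ℝ) ≤ ∑ x : F, ∑ y : F, qc (x ^ 2 - ν * y ^ 2) := by
    have h4 : (1 : ℝ) ≤ ∑ y : F, qc ((1 : F) ^ 2 - ν * y ^ 2) := by
      have h5 := Finset.single_le_sum (f := fun y : F => qc ((1 : F) ^ 2 - ν * y ^ 2))
        (fun y _ => h2 1 y) (Finset.mem_univ (0 : F))
      have h6 : qc ((1 : F) ^ 2 - ν * (0 : F) ^ 2) = 1 := by
        rw [show (1 : F) ^ 2 - ν * (0 : F) ^ 2 = 1 by ring, qc_one]
      exact h6 ▸ h5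
    exact h4.trans (Finset.single_le_sum (f := fun x : F => ∑ y : F, qc (x ^ 2 - ν * y ^ 2))
      (fun x _ => Finset.sum_nonneg fun y _ => h2 x y) (Finset.mem_univ (1 : F)))
  rw [h1] at h3
  norm_num at h3

include hF hϑ in
lemma av_le_both (ν : F) (hν0 : ν ≠ 0) (hν : qc ν = -1) :
    av ϑ ≤ (ϑ 1 + RR (fun g : GL (Fin 2) F => ϑ (mk g)) 1) / 2 ∧
    av ϑ ≤ (ϑ 1 + RR (fun g : GL (Fin 2) F => ϑ (mk g)) ν) / 2 := by
  have hc := hcϑ hϑ
  have hz : ∀ (u : Fˣ) (g : GL (Fin 2) F),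
    ϑ (mk (GeneralLinearGroup.scalar (Fin 2) u * g)) = ϑ (mk g) := hzϑ
  have h0 := av_le_half hF hϑ ν hν0 hν
  have e1 := av_nor hF hϑ 1 one_ne_zero ν hν0 hν
  have e2 := av_nor hF hϑ ν hν0 ν hν0 hν
  have a1 := AT_le hF hϑ 1 one_ne_zero
  have a2 := AT_le hF hϑ ν hν0
  have hm1 : (-1 : F) ≠ 0 := by simp
  rcases qc_cases hm1 with hm | hm
  · have n1 := nor_le hF hϑ 1 one_ne_zero 1 0 (by simp)
    have hx : ((ν + 1) / 2) ^ 2 - 1 * ((ν - 1) / 2) ^ 2 = ν := by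
      have := two_ne hF
      field_simp
      ring
    have n2 := nor_le hF hϑ 1 one_ne_zero ((ν + 1) / 2) ((ν - 1) / 2) (by rw [hx]; exact hν0)
    rw [hx] at n2
    have r1 : RR (fun g : GL (Fin 2) F => ϑ (mk g)) ((1 : F) ^ 2 - 1 * (0 : F) ^ 2) =
        RR (fun g : GL (Fin 2) F => ϑ (mk g)) 1 := by
      congr 1; ring
    have r2 : RR (fun g : GL (Fin 2) F => ϑ (mk g)) (-(1 * ((1 : F) ^ 2 - 1 * (0 : F) ^ 2))) =
        RR (fun g : GL (Fin 2) F => ϑ (mk g)) 1 := by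
      rw [show (-(1 * ((1 : F) ^ 2 - 1 * (0 : F) ^ 2))) = -1 by ring]
      exact RR_of_sq hc hz hm1 hm
    have r3 : RR (fun g : GL (Fin 2) F => ϑ (mk g)) (-(1 * ν)) =
        RR (fun g : GL (Fin 2) F => ϑ (mk g)) ν := by
      refine RR_of_nsq hc hz (by simpa using hν0) ?_ hν0 hν
      rw [show (-(1 * ν)) = -1 * ν by ring, qc_mul, hm, hν]
      norm_num
    rw [r1, r2] at n1
    rw [r3] at n2
    constructor <;> linarith
  · obtain ⟨x, y, hxy, hxy'⟩ := exists_norm_nsq hF ν hν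
    have n1 := nor_le hF hϑ ν hν0 1 0 (by simp)
    have n2 := nor_le hF hϑ ν hν0 x y hxy
    have r1 : RR (fun g : GL (Fin 2) F => ϑ (mk g)) ((1 : F) ^ 2 - ν * (0 : F) ^ 2) =
        RR (fun g : GL (Fin 2) F => ϑ (mk g)) 1 := by
      congr 1; ring
    have r2 : RR (fun g : GL (Fin 2) F => ϑ (mk g)) (-(ν * ((1 : F) ^ 2 - ν * (0 : F) ^ 2))) =
        RR (fun g : GL (Fin 2) F => ϑ (mk g)) 1 := by
      rw [show (-(ν * ((1 : F) ^ 2 - ν * (0 : F) ^ 2))) = -ν by ring]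
      refine RR_of_sq hc hz (by simpa using hν0) ?_
      rw [show -ν = -1 * ν by ring, qc_mul, hm, hν]
      norm_num
    have r3 : RR (fun g : GL (Fin 2) F => ϑ (mk g)) (x ^ 2 - ν * y ^ 2) =
        RR (fun g : GL (Fin 2) F => ϑ (mk g)) ν := RR_of_nsq hc hz hxy hxy' hν0 hν
    have r4 : RR (fun g : GL (Fin 2) F => ϑ (mk g)) (-(ν * (x ^ 2 - ν * y ^ 2))) =
        RR (fun g : GL (Fin 2) F => ϑ (mk g)) ν := by
      refine RR_of_nsq hc hz (by simpa using ⟨hν0, hxy⟩) ?_ hν0 hν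
      rw [show (-(ν * (x ^ 2 - ν * y ^ 2))) = -1 * (ν * (x ^ 2 - ν * y ^ 2)) by ring, qc_mul,
        qc_mul, hm, hν, hxy']
      norm_num
    rw [r1, r2] at n1
    rw [r3, r4] at n2
    constructor <;> linarith

include hF hϑ in
lemma av_le_invol (t : Matrix.ProjGenLinGroup (Fin 2) F) (ht : t * t = 1) (ht1 : t ≠ 1) :
    av ϑ ≤ (ϑ 1 + ϑ t) / 2 := by
  obtain ⟨ν, hν⟩ := quadraticChar_exists_neg_one hF
  have hν' : qc ν = -1 := by
    unfold qc
    rw [hν]
    norm_num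
  have hν0 : ν ≠ 0 := by
    rintro rfl
    rw [qc_zero] at hν'
    norm_num at hν'
  have hc := hcϑ hϑ
  have hz : ∀ (u : Fˣ) (g : GL (Fin 2) F),
    ϑ (mk (GeneralLinearGroup.scalar (Fin 2) u * g)) = ϑ (mk g) := hzϑ
  obtain ⟨b1, b2⟩ := av_le_both hF hϑ ν hν0 hν'
  obtain ⟨g, rfl⟩ := mk_surjective (n := Fin 2) (R := F) t
  obtain ⟨a, b, c, e, h, rfl⟩ := exists_mk4 g
  have h2 := two_ne hF
  have hns : ¬ (b = 0 ∧ c = 0 ∧ a = e) := by
    rintro ⟨rfl, rfl, rfl⟩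
    apply ht1
    have ha : a ≠ 0 := by
      rintro rfl
      simp at h
    have h1 := mk_scalar (n := Fin 2) (R := F) (Units.mk0 a ha)
    rw [scalar_eq_mk4] at h1
    exact h1
  have htr : a + e = 0 := by
    by_contra hae
    apply hns
    rw [← map_mul, mk4_mul, ← mk_one, eq_comm, mk_eq_mk_iff] at ht
    obtain ⟨u, hu⟩ := ht
    rw [one_mul, scalar_eq_mk4, mk4_eq_iff] at hu
    obtain ⟨u1, u2, u3, u4⟩ := hu
    have hb : b = 0 := by
      have : b * (a + e) = 0 := by linear_combination -u2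
      exact (mul_eq_zero.1 this).resolve_right hae
    have hcc : c = 0 := by
      have : c * (a + e) = 0 := by linear_combination -u3
      exact (mul_eq_zero.1 this).resolve_right hae
    refine ⟨hb, hcc, ?_⟩
    have : (a - e) * (a + e) = 0 := by
      subst hb hcc
      linear_combination u4 - u1
    exact sub_eq_zero.1 ((mul_eq_zero.1 this).resolve_right hae)
  have hns' : b ≠ 0 ∨ c ≠ 0 ∨ a ≠ e := by
    by_contra hcon
    push Not at hcon
    exact hns hcon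
  have h1 := eq_val (θ := fun g : GL (Fin 2) F => ϑ (mk g)) hc a b c e h hns'
  have h3 : ϑ (mk (mk4 a b c e h)) =
      RR (fun g : GL (Fin 2) F => ϑ (mk g)) (-(a * e - b * c)) := by
    have : val (fun g : GL (Fin 2) F => ϑ (mk g)) (a + e) (a * e - b * c) =
      RR (fun g : GL (Fin 2) F => ϑ (mk g)) (-(a * e - b * c)) := by
      rw [RR, htr, neg_neg]
    rw [← this]
    exact h1
  rw [h3]
  have h4 : -(a * e - b * c) ≠ 0 := neg_ne_zero.2 h
  rcases qc_cases h4 with h5 | h5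
  · rw [RR_of_sq hc hz h4 h5]
    exact b1
  · rw [RR_of_nsq hc hz h4 h5 hν0 hν']
    exact b2

include hF in
theorem ded_invol (t : Matrix.ProjGenLinGroup (Fin 2) F) (ht : t * t = 1) :
    Ded (Subgroup.zpowers t) := by
  intro ϑ hϑ
  by_cases ht1 : t = 1
  · subst ht1
    rw [Subgroup.zpowers_one_eq_bot]
    exact ded_bot ϑ hϑ
  · have h1 := av_le_invol hF hϑ t ht ht1
    let a : Subgroup.zpowers t := ⟨t, Subgroup.mem_zpowers t⟩
    have ha : a ^ 2 = 1 := by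
      rw [pow_two]
      exact Subtype.ext ht
    obtain ⟨φ, hφ⟩ := exists_zmodHom a 2 ha
    have hs : Function.Surjective φ := by
      rintro ⟨x, k, rfl⟩
      exact ⟨_, hφ k⟩
    have h2 : av (fun h : Subgroup.zpowers t => ϑ h) =
      av (fun p : Multiplicative (ZMod 2) => ϑ (φ p)) :=
      (av_comp_surj φ hs (fun h : Subgroup.zpowers t => ϑ h)).symm
    rw [h2]
    refine h1.trans (le_of_eq ?_)
    rw [av_eq_sum, ← Multiplicative.ofAdd.sum_comp]
    have h0 : φ (Multiplicative.ofAdd (0 : ZMod 2)) = 1 := by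
      rw [ofAdd_zero, map_one]
    have h2 : φ (Multiplicative.ofAdd (1 : ZMod 2)) = a := by
      have := hφ 1
      rwa [zpow_one, Int.cast_one] at this
    have h3 : ∑ i : ZMod 2, ϑ (φ (Multiplicative.ofAdd i)) = ϑ 1 + ϑ t := by
      have h4 := Fin.sum_univ_two (M := ℝ) (fun i : ZMod 2 => ϑ (φ (Multiplicative.ofAdd i)))
      refine h4.trans ?_
      show ϑ (φ (Multiplicative.ofAdd (0 : ZMod 2))) + ϑ (φ (Multiplicative.ofAdd (1 : ZMod 2))) = _
      rw [h0, h2]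
      rfl
    rw [h3]
    simp

end Pool.Agent.Helper13.PGL
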