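import Pool.Agent.Helper13.PGL.Mat

/-!
The two maximal tori of `GL_2(F)` and their normalisers.
-/

namespace Pool.Agent.Helper13.PGL

open Finset Matrix Pool.Agent.Helper13.Ded Matrix.ProjGenLinGroup

variable {F : Type*} [Field F]

/-- the element generating the torus -/
def al (δ : F) (hδ : δ ≠ 0) : GL (Fin 2) F := mk4 0 δ 1 0 (by simpa using hδ)

/-- the torus -/
def tor (δ : F) (hδ : δ ≠ 0) : Subgroup (GL (Fin 2) F) := Subgroup.centralizer {al δ hδ}

/-- its normaliser -/
def nor (δ : F) (hδ : δ ≠ 0) : Subgroup (GL (Fin 2) F) :=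
  (Subgroup.centralizer {(mk (al δ hδ) : Matrix.ProjGenLinGroup (Fin 2) F)}).comap mk

variable {δ : F} {hδ : δ ≠ 0}

lemma mem_tor {a b c e : F} {h : a * e - b * c ≠ 0} :
    mk4 a b c e h ∈ tor δ hδ ↔ b = δ * c ∧ e = a := by
  rw [tor, Subgroup.mem_centralizer_singleton_iff, al, mk4_mul, mk4_mul, mk4_eq_iff]
  constructor
  · rintro ⟨h1, h2, h3, h4⟩
    constructor
    · linear_combination h1
    · linear_combination h3
  · rintro ⟨rfl, rfl⟩
    refine ⟨by ring, by ring, by ring, by ring⟩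

lemma mem_nor {a b c e : F} {h : a * e - b * c ≠ 0} :
    mk4 a b c e h ∈ nor δ hδ ↔ (b = δ * c ∧ e = a) ∨ (b = -(δ * c) ∧ e = -a) := by
  rw [nor, Subgroup.mem_comap, Subgroup.mem_centralizer_singleton_iff, ← map_mul, ← map_mul,
    mk_eq_mk_iff]
  constructor
  · rintro ⟨u, hu⟩
    rw [al, mk4_mul, mk4_mul, scalar_eq_mk4, mk4_mul, mk4_eq_iff] at hu
    obtain ⟨h1, h2', h3, h4⟩ := hu
    have hu0 : (u : F) ≠ 0 := u.ne_zero
    -- `b u = δ c`, `a δ u = δ e`, `e u = a`, `c δ u = b`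
    have e1 : b * u = δ * c := by linear_combination h1
    have e2 : δ * (a * u) = δ * e := by linear_combination h2'
    have e3 : e * u = a := by linear_combination h3
    have e4 : δ * c * u = b := by linear_combination h4
    have e2' : a * u = e := mul_left_cancel₀ hδ e2
    have hu2 : (u : F) * u = 1 := by
      by_contra hne
      have hb : b = 0 := by
        have : b * (u * u - 1) = 0 := by linear_combination u * e1 + e4
        rcases mul_eq_zero.1 this with h5 | h5
        · exact h5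
        · exact absurd (sub_eq_zero.1 h5) hne
      have ha : a = 0 := by
        have : a * (u * u - 1) = 0 := by linear_combination u * e2' + e3
        rcases mul_eq_zero.1 this with h5 | h5
        · exact h5
        · exact absurd (sub_eq_zero.1 h5) hne
      apply h
      rw [ha, hb]
      ring
    have hu1 : ((u : F) - 1) * (u + 1) = 0 := by linear_combination hu2
    rcases mul_eq_zero.1 hu1 with h5 | h5
    · left
      have : (u : F) = 1 := sub_eq_zero.1 h5
      rw [this] at e1 e2'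
      exact ⟨by linear_combination e1, by linear_combination -e2'⟩
    · right
      have : (u : F) = -1 := by linear_combination h5
      rw [this] at e1 e2'
      exact ⟨by linear_combination -e1, by linear_combination -e2'⟩
  · rintro (⟨rfl, rfl⟩ | ⟨rfl, rfl⟩)
    · refine ⟨1, ?_⟩
      rw [al, mk4_mul, mk4_mul, scalar_eq_mk4, mk4_mul, mk4_eq_iff]
      simp only [Units.val_one]
      refine ⟨by ring, by ring, by ring, by ring⟩
    · refine ⟨-1, ?_⟩
      rw [al, mk4_mul, mk4_mul, scalar_eq_mk4, mk4_mul, mk4_eq_iff]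
      simp only [Units.val_neg, Units.val_one]
      refine ⟨by ring, by ring, by ring, by ring⟩

lemma tor_comm (x y : tor δ hδ) : x * y = y * x := by
  obtain ⟨x, hx⟩ := x
  obtain ⟨y, hy⟩ := y
  apply Subtype.ext
  show x * y = y * x
  obtain ⟨a, b, c, e, h, rfl⟩ := exists_mk4 x
  obtain ⟨a', b', c', e', h', rfl⟩ := exists_mk4 y
  obtain ⟨h1, h2⟩ := mem_tor.1 hx
  obtain ⟨h3, h4⟩ := mem_tor.1 hy
  rw [mk4_mul, mk4_mul, mk4_eq_iff]
  subst h1 h2 h3 h4
  refine ⟨by ring, by ring, by ring, by ring⟩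

instance solv_tor : Group.IsSolvable (tor δ hδ) := Group.isSolvable_of_comm tor_comm

lemma tor_le_nor : tor δ hδ ≤ nor δ hδ := by
  intro g hg
  obtain ⟨a, b, c, e, h, rfl⟩ := exists_mk4 g
  exact mem_nor.2 (Or.inl (mem_tor.1 hg))

/-- the quotient of the normaliser by the torus is commutative -/
lemma solv_nor : Group.IsSolvable (nor δ hδ) := by
  have hex : ∀ g : nor δ hδ, ∃ u : Fˣ, (g : GL (Fin 2) F) * al δ hδ *
      GeneralLinearGroup.scalar (Fin 2) u = al δ hδ * g := by
    intro g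
    have h1 : (mk (g : GL (Fin 2) F) : Matrix.ProjGenLinGroup (Fin 2) F) ∈
      Subgroup.centralizer {mk (al δ hδ)} := g.2
    rw [Subgroup.mem_centralizer_singleton_iff, ← map_mul, ← map_mul, mk_eq_mk_iff] at h1
    exact h1
  choose κ hκ using hex
  have hcen : ∀ (u : Fˣ) (g : GL (Fin 2) F), GeneralLinearGroup.scalar (Fin 2) u * g =
      g * GeneralLinearGroup.scalar (Fin 2) u := by
    intro u g
    obtain ⟨a, b, c, e, h, rfl⟩ := exists_mk4 g
    rw [scalar_eq_mk4, mk4_mul, mk4_mul, mk4_eq_iff]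
    refine ⟨by ring, by ring, by ring, by ring⟩
  have hinj : ∀ u v : Fˣ, (GeneralLinearGroup.scalar (Fin 2) u : GL (Fin 2) F) =
      GeneralLinearGroup.scalar (Fin 2) v → u = v := by
    intro u v h
    rw [scalar_eq_mk4, scalar_eq_mk4, mk4_eq_iff] at h
    exact Units.ext h.1
  let f : nor δ hδ →* Fˣ := MonoidHom.mk' κ (by
    intro x y
    apply hinj
    have h1 := hκ (x * y)
    have h3 : (((x * y : nor δ hδ) : GL (Fin 2) F) * al δ hδ) *
        (GeneralLinearGroup.scalar (Fin 2) (κ x * κ y)) = al δ hδ * ((x * y : nor δ hδ)) := by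
      rw [map_mul, Subgroup.coe_mul]
      calc (x : GL (Fin 2) F) * y * al δ hδ * (GeneralLinearGroup.scalar (Fin 2) (κ x) *
            GeneralLinearGroup.scalar (Fin 2) (κ y))
          = x * (y * al δ hδ * GeneralLinearGroup.scalar (Fin 2) (κ y)) *
            GeneralLinearGroup.scalar (Fin 2) (κ x) := by
            rw [← map_mul, mul_comm (κ x), map_mul]
            simp only [mul_assoc]
        _ = x * (al δ hδ * y) * GeneralLinearGroup.scalar (Fin 2) (κ x) := by rw [hκ y]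
        _ = x * al δ hδ * (y * GeneralLinearGroup.scalar (Fin 2) (κ x)) := by
            simp only [mul_assoc]
        _ = x * al δ hδ * (GeneralLinearGroup.scalar (Fin 2) (κ x) * y) := by
            rw [hcen (κ x) y]
        _ = (x * al δ hδ * GeneralLinearGroup.scalar (Fin 2) (κ x)) * y := by
            simp only [mul_assoc]
        _ = al δ hδ * x * y := by rw [hκ x]
        _ = al δ hδ * (x * y) := by rw [mul_assoc]
    rw [← h3] at h1
    exact mul_left_cancel h1)
  refine Group.isSolvable_of_ker_le_range (Subgroup.inclusion tor_le_nor) f ?_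
  intro x hx
  have h1 : κ x = 1 := MonoidHom.mem_ker.1 hx
  have h3 := hκ x
  rw [h1, map_one, mul_one] at h3
  refine ⟨⟨x, ?_⟩, rfl⟩
  rw [tor, Subgroup.mem_centralizer_singleton_iff]
  exact h3

open Classical in
/-- value at the matrix with given entries, zero if it is singular -/
noncomputable def ev (θ : GL (Fin 2) F → ℝ) (a b c e : F) : ℝ :=
  if h : a * e - b * c ≠ 0 then θ (mk4 a b c e h) else 0

lemma ev_pos (θ : GL (Fin 2) F → ℝ) {a b c e : F} (h : a * e - b * c ≠ 0) :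
    ev θ a b c e = θ (mk4 a b c e h) := by
  unfold ev
  rw [dif_pos h]

lemma ev_neg (θ : GL (Fin 2) F → ℝ) {a b c e : F} (h : ¬ (a * e - b * c ≠ 0)) :
    ev θ a b c e = 0 := by
  unfold ev
  rw [dif_neg h]

section sums

variable [Fintype F] [DecidableEq F]

/-- sum over all matrices -/
lemma sum_GL (θ : GL (Fin 2) F → ℝ) : ∑ᶠ g, θ g = ∑ a : F, ∑ e : F, ∑ b : F, ∑ c : F,
    ev θ a b c e := by
  classical
  rw [finsum_eq_sum_of_fintype]
  have h1 : ∑ p : F × F × F × F, ev θ p.1 p.2.2.1 p.2.2.2 p.2.1 =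
      ∑ a : F, ∑ e : F, ∑ b : F, ∑ c : F, ev θ a b c e := by
    simp only [Fintype.sum_prod_type]
  rw [← h1]
  refine Fintype.sum_of_injective (fun g : GL (Fin 2) F => (g.1 0 0, g.1 1 1, g.1 0 1, g.1 1 0))
    ?_ _ _ ?_ ?_
  · intro g g' hgg
    simp only [Prod.mk.injEq] at hgg
    obtain ⟨h2, h3, h4, h5⟩ := hgg
    refine Units.ext ?_
    rw [eta_fin_two g.1, eta_fin_two g'.1, h2, h3, h4, h5]
  · rintro ⟨a, e, b, c⟩ hp
    refine ev_neg θ ?_
    intro h
    exact hp ⟨mk4 a b c e h, rfl⟩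
  · intro g
    obtain ⟨a, b, c, e, h, rfl⟩ := exists_mk4 g
    exact (ev_pos θ h).symm

lemma sum_tor (θ : GL (Fin 2) F → ℝ) : ∑ᶠ g : tor δ hδ, θ g = ∑ x : F, ∑ y : F,
    ev θ x (δ * y) y x := by
  classical
  have := Fintype.ofFinite (tor δ hδ)
  rw [finsum_eq_sum_of_fintype]
  have h1 : ∑ p : F × F, ev θ p.1 (δ * p.2) p.2 p.1 = ∑ x : F, ∑ y : F, ev θ x (δ * y) y x := by
    simp only [Fintype.sum_prod_type]
  rw [← h1]
  refine Fintype.sum_of_injective (fun g : tor δ hδ => (g.1.1 0 0, g.1.1 1 0)) ?_ _ _ ?_ ?_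
  · rintro ⟨g, hg⟩ ⟨g', hg'⟩ hgg
    obtain ⟨a, b, c, e, h, rfl⟩ := exists_mk4 g
    obtain ⟨a', b', c', e', h', rfl⟩ := exists_mk4 g'
    obtain ⟨h2, h3⟩ := mem_tor.1 hg
    obtain ⟨h4, h5⟩ := mem_tor.1 hg'
    have h6 : a = a' := congrArg Prod.fst hgg
    have h7 : c = c' := congrArg Prod.snd hgg
    apply Subtype.ext
    show mk4 a b c e h = mk4 a' b' c' e' h'
    rw [mk4_eq_iff]
    subst h2 h3 h4 h5 h6 h7
    exact ⟨rfl, rfl, rfl, rfl⟩
  · rintro ⟨x, y⟩ hp
    refine ev_neg θ ?_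
    intro h
    exact hp ⟨⟨mk4 x (δ * y) y x h, mem_tor.2 ⟨rfl, rfl⟩⟩, rfl⟩
  · rintro ⟨g, hg⟩
    obtain ⟨a, b, c, e, h, rfl⟩ := exists_mk4 g
    obtain ⟨h2, h3⟩ := mem_tor.1 hg
    subst h2 h3
    exact (ev_pos θ h).symm

lemma sum_nor (h2 : (2 : F) ≠ 0) (θ : GL (Fin 2) F → ℝ) : ∑ᶠ g : nor δ hδ, θ g =
    (∑ x : F, ∑ y : F, ev θ x (δ * y) y x) +
    ∑ x : F, ∑ y : F, ev θ x (-(δ * y)) y (-x) := by
  classical
  have := Fintype.ofFinite (nor δ hδ)
  rw [finsum_eq_sum_of_fintype]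
  let f : F × F × Bool → ℝ := fun p =>
    if p.2.2 = true then ev θ p.1 (δ * p.2.1) p.2.1 p.1
    else ev θ p.1 (-(δ * p.2.1)) p.2.1 (-p.1)
  have h1 : ∑ p : F × F × Bool, f p =
      (∑ x : F, ∑ y : F, ev θ x (δ * y) y x) + ∑ x : F, ∑ y : F, ev θ x (-(δ * y)) y (-x) := by
    simp only [Fintype.sum_prod_type, Fintype.sum_bool]
    rw [← Finset.sum_add_distrib]
    refine Finset.sum_congr rfl fun x _ => ?_
    rw [← Finset.sum_add_distrib]
    refine Finset.sum_congr rfl fun y _ => ?_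
    simp [f]
  rw [← h1]
  refine Fintype.sum_of_injective (fun g : nor δ hδ => (g.1.1 0 0, g.1.1 1 0,
    decide (g.1.1 0 1 = δ * g.1.1 1 0 ∧ g.1.1 1 1 = g.1.1 0 0))) ?_ _ _ ?_ ?_
  · rintro ⟨g, hg⟩ ⟨g', hg'⟩ hgg
    obtain ⟨a, b, c, e, h, rfl⟩ := exists_mk4 g
    obtain ⟨a', b', c', e', h', rfl⟩ := exists_mk4 g'
    have h6 : a = a' := congrArg (fun p : F × F × Bool => p.1) hgg
    have h7 : c = c' := congrArg (fun p : F × F × Bool => p.2.1) hgg
    have h8 : decide (b = δ * c ∧ e = a) = decide (b' = δ * c' ∧ e' = a') :=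
      congrArg (fun p : F × F × Bool => p.2.2) hgg
    rw [decide_eq_decide] at h8
    have h3 := mem_nor.1 hg
    have h4 := mem_nor.1 hg'
    apply Subtype.ext
    show mk4 a b c e h = mk4 a' b' c' e' h'
    rw [mk4_eq_iff]
    refine ⟨h6, ?_, h7, ?_⟩
    · by_cases hh : b = δ * c ∧ e = a
      · rw [hh.1, (h8.1 hh).1, h7]
      · rw [(h3.resolve_left hh).1, (h4.resolve_left (fun h => hh (h8.2 h))).1, h7]
    · by_cases hh : b = δ * c ∧ e = a
      · rw [hh.2, (h8.1 hh).2, h6]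
      · rw [(h3.resolve_left hh).2, (h4.resolve_left (fun h => hh (h8.2 h))).2, h6]
  · rintro ⟨x, y, t⟩ hp
    rcases t with _ | _
    · show ite (false = true) _ _ = _
      rw [if_neg (by simp)]
      refine ev_neg θ ?_
      intro h
      refine hp ⟨⟨mk4 x (-(δ * y)) y (-x) h, mem_nor.2 (Or.inr ⟨rfl, rfl⟩)⟩, ?_⟩
      show (x, y, decide (-(δ * y) = δ * y ∧ -x = x)) = (x, y, false)
      congr 2
      rw [decide_eq_false_iff_not]
      rintro ⟨h3, h4⟩
      apply h
      have hx : x = 0 := by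
        have : 2 * x = 0 := by linear_combination -h4
        exact (mul_eq_zero.1 this).resolve_left h2
      have hy : δ * y = 0 := by
        have : 2 * (δ * y) = 0 := by linear_combination -h3
        exact (mul_eq_zero.1 this).resolve_left h2
      rw [hx, hy]
      ring
    · show ite (true = true) _ _ = _
      rw [if_pos rfl]
      refine ev_neg θ ?_
      intro h
      refine hp ⟨⟨mk4 x (δ * y) y x h, mem_nor.2 (Or.inl ⟨rfl, rfl⟩)⟩, ?_⟩
      show (x, y, decide (δ * y = δ * y ∧ x = x)) = (x, y, true)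
      simp
  · rintro ⟨g, hg⟩
    obtain ⟨a, b, c, e, h, rfl⟩ := exists_mk4 g
    show θ (mk4 a b c e h) = f (a, c, decide (b = δ * c ∧ e = a))
    by_cases hh : b = δ * c ∧ e = a
    · obtain ⟨rfl, rfl⟩ := hh
      rw [show decide (δ * c = δ * c ∧ e = e) = true by simp]
      show _ = ite (true = true) _ _
      rw [if_pos rfl]
      exact (ev_pos θ h).symm
    · rw [show decide (b = δ * c ∧ e = a) = false by simpa using hh]
      obtain ⟨rfl, rfl⟩ := (mem_nor.1 hg).resolve_left hh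
      show _ = ite (false = true) _ _
      rw [if_neg (by simp)]
      exact (ev_pos θ h).symm

end sums

end Pool.Agent.Helper13.PGL
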