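import Pool.Agent.Helper13.PGL.Groups

/-!
The inequalities for `PGL_2(F)`.
-/

namespace Pool.Agent.Helper13.PGL

open Finset Matrix Pool.Agent.Helper13.Ded Matrix.ProjGenLinGroup Pool.Agent.Helper13.Alt

variable {F : Type*} [Field F] [Fintype F] [DecidableEq F]

section general

variable {θ : GL (Fin 2) F → ℝ} (hc : ∀ g h, θ (h * g * h⁻¹) = θ g)
  (hz : ∀ (u : Fˣ) g, θ (GeneralLinearGroup.scalar (Fin 2) u * g) = θ g)

/-- correction at scalar matrices -/
noncomputable def cor (θ : GL (Fin 2) F → ℝ) (a : F) : ℝ :=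
  if a ≠ 0 then θ 1 - val θ (2 * a) (a ^ 2) else 0

include hc hz in
lemma ev_eq (a b c e : F) : ev θ a b c e = val θ (a + e) (a * e - b * c) +
    (if b = 0 ∧ c = 0 ∧ a = e then cor θ a else 0) := by
  by_cases hh : b = 0 ∧ c = 0 ∧ a = e
  · obtain ⟨rfl, rfl, rfl⟩ := hh
    rw [if_pos ⟨rfl, rfl, rfl⟩]
    by_cases ha : a = 0
    · subst ha
      rw [ev_neg θ (by simp)]
      unfold cor val
      simp
    · have h : a * a - 0 * 0 ≠ 0 := by simpa using ha
      rw [ev_pos θ h, eq_one hz]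
      unfold cor
      rw [if_pos ha]
      have e1 : a + a = 2 * a := by ring
      have e2 : a * a - 0 * 0 = a ^ 2 := by ring
      rw [e1, e2]
      ring
  · rw [if_neg hh, add_zero]
    by_cases h : a * e - b * c ≠ 0
    · rw [ev_pos θ h, eq_val hc]
      by_contra hcon
      push Not at hcon
      exact hh hcon
    · rw [ev_neg θ h]
      unfold val
      rw [dif_neg h]

include hc hz in
lemma sum_ev_GL : ∑ a : F, ∑ e : F, ∑ b : F, ∑ c : F, ev θ a b c e =
    (∑ a : F, ∑ e : F, ∑ b : F, ∑ c : F, val θ (a + e) (a * e - b * c)) + ∑ a : F, cor θ a := by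
  have h1 : ∀ a e : F, ∑ b : F, ∑ c : F, ev θ a b c e =
      (∑ b : F, ∑ c : F, val θ (a + e) (a * e - b * c)) + (if a = e then cor θ a else 0) := by
    intro a e
    have h2 : ∑ b : F, ∑ c : F, (if b = 0 ∧ c = 0 ∧ a = e then cor θ a else 0) =
        if a = e then cor θ a else 0 := by
      rw [Finset.sum_eq_single 0, Finset.sum_eq_single 0]
      · simp
      · intro c _ hc0
        rw [if_neg]
        rintro ⟨-, h, -⟩
        exact hc0 h
      · simp
      · intro b _ hb0
        refine Finset.sum_eq_zero fun c _ => ?_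
        rw [if_neg]
        rintro ⟨h, -⟩
        exact hb0 h
      · simp
    rw [← h2, ← Finset.sum_add_distrib]
    refine Finset.sum_congr rfl fun b _ => ?_
    rw [← Finset.sum_add_distrib]
    refine Finset.sum_congr rfl fun c _ => ?_
    exact ev_eq hc hz a b c e
  rw [← Finset.sum_add_distrib]
  refine Finset.sum_congr rfl fun a _ => ?_
  rw [Finset.sum_congr rfl fun e _ => h1 a e, Finset.sum_add_distrib]
  congr 1
  rw [Finset.sum_ite_eq]
  simp

include hc hz in
lemma sum_ev_tor (δ : F) (hδ : δ ≠ 0) : ∑ x : F, ∑ y : F, ev θ x (δ * y) y x =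
    (∑ x : F, ∑ y : F, val θ (2 * x) (x ^ 2 - δ * y ^ 2)) + ∑ a : F, cor θ a := by
  rw [← Finset.sum_add_distrib]
  refine Finset.sum_congr rfl fun x _ => ?_
  have h1 : ∀ y : F, ev θ x (δ * y) y x = val θ (2 * x) (x ^ 2 - δ * y ^ 2) +
      if y = 0 then cor θ x else 0 := by
    intro y
    rw [ev_eq hc hz]
    congr 1
    · congr 1
      · ring
      · ring
    · by_cases hy : y = 0
      · rw [if_pos hy, if_pos]
        rw [hy]
        simp
      · rw [if_neg hy, if_neg]
        rintro ⟨-, h, -⟩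
        exact hy h
  rw [Finset.sum_congr rfl fun y _ => h1 y, Finset.sum_add_distrib]
  congr 1
  rw [Finset.sum_ite_eq']
  simp

include hc hz in
lemma sum_ev_ref (h2 : (2 : F) ≠ 0) (δ : F) : ∑ x : F, ∑ y : F, ev θ x (-(δ * y)) y (-x) =
    ∑ x : F, ∑ y : F, val θ 0 (-(x ^ 2 - δ * y ^ 2)) := by
  refine Finset.sum_congr rfl fun x _ => Finset.sum_congr rfl fun y _ => ?_
  rw [ev_eq hc hz]
  have h3 : (if -(δ * y) = 0 ∧ y = 0 ∧ x = -x then cor θ x else 0) = 0 := by
    by_cases h : -(δ * y) = 0 ∧ y = 0 ∧ x = -x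
    · rw [if_pos h]
      have hx : x = 0 := by
        have : 2 * x = 0 := by linear_combination h.2.2
        exact (mul_eq_zero.1 this).resolve_left h2
      rw [hx]
      unfold cor
      simp
    · rw [if_neg h]
  rw [h3, add_zero]
  congr 1
  · ring
  · ring

end general

section card

variable (hF : ringChar F ≠ 2)

/-- indicator of nonzero determinant -/
def T1 (_t d : F) : ℝ := if d ≠ 0 then 1 else 0

omit [Fintype F] in
lemma ev_one (a b c e : F) : ev (fun _ : GL (Fin 2) F => (1 : ℝ)) a b c e =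
    T1 (a + e) (a * e - b * c) := by
  unfold T1
  by_cases h : a * e - b * c ≠ 0
  · rw [ev_pos _ h, if_pos h]
  · rw [ev_neg _ h, if_neg h]

omit [Field F] [DecidableEq F] [Fintype F] in
lemma finsum_one {P : Type*} [Finite P] : ∑ᶠ _p : P, (1 : ℝ) = Nat.card P := by
  have := Fintype.ofFinite P
  rw [finsum_eq_sum_of_fintype]
  simp

lemma sum_T1 : ∑ c : F, T1 (0 : F) c = Fintype.card F - 1 := by
  unfold T1
  rw [← Finset.sum_erase_add _ _ (Finset.mem_univ (0 : F))]
  rw [if_neg (by simp), add_zero]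
  have h1 : ∑ x ∈ univ.erase (0 : F), (if x ≠ 0 then (1 : ℝ) else 0) =
      ∑ x ∈ univ.erase (0 : F), (1 : ℝ) :=
    Finset.sum_congr rfl fun x hx => by rw [if_pos (Finset.ne_of_mem_erase hx)]
  rw [h1, Finset.sum_const, Finset.card_erase_of_mem (Finset.mem_univ _), Finset.card_univ,
    nsmul_eq_mul, Nat.cast_sub (Nat.one_le_iff_ne_zero.2 Fintype.card_ne_zero)]
  simp

include hF in
lemma sum_T1_tor (δ : F) (hδ : δ ≠ 0) : ∑ x : F, ∑ y : F, T1 (2 * x) (x ^ 2 - δ * y ^ 2) =
    (Fintype.card F - qc δ) * (Fintype.card F - 1) := by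
  have h1 := sum_norm hF δ hδ (fun d => T1 (0 : F) d)
  rw [sum_T1] at h1
  have h2 : T1 (0 : F) 0 = 0 := by unfold T1; simp
  rw [h2, mul_zero, add_zero] at h1
  rw [← h1]
  rfl

include hF in
lemma card_tor (δ : F) (hδ : δ ≠ 0) : (Nat.card (tor δ hδ) : ℝ) =
    (Fintype.card F - qc δ) * (Fintype.card F - 1) := by
  rw [← finsum_one, sum_tor (δ := δ) (hδ := hδ) (fun _ => (1 : ℝ)), ← sum_T1_tor hF δ hδ]
  refine Finset.sum_congr rfl fun x _ => Finset.sum_congr rfl fun y _ => ?_
  rw [ev_one]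
  congr 1
  · ring
  · ring

include hF in
lemma card_nor (δ : F) (hδ : δ ≠ 0) : (Nat.card (nor δ hδ) : ℝ) =
    2 * ((Fintype.card F - qc δ) * (Fintype.card F - 1)) := by
  have h3 : ∑ x : F, ∑ y : F, ev (fun _ : GL (Fin 2) F => (1 : ℝ)) x (δ * y) y x =
      (Fintype.card F - qc δ) * (Fintype.card F - 1) := by
    rw [← sum_T1_tor hF δ hδ]
    refine Finset.sum_congr rfl fun x _ => Finset.sum_congr rfl fun y _ => ?_
    rw [ev_one]
    congr 1
    · ring
    · ring
  have h4 : ∑ x : F, ∑ y : F, ev (fun _ : GL (Fin 2) F => (1 : ℝ)) x (-(δ * y)) y (-x) =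
      (Fintype.card F - qc δ) * (Fintype.card F - 1) := by
    rw [← sum_T1_tor hF δ hδ]
    refine Finset.sum_congr rfl fun x _ => Finset.sum_congr rfl fun y _ => ?_
    rw [ev_one]
    unfold T1
    have h5 : (x * -x - -(δ * y) * y ≠ 0) ↔ (x ^ 2 - δ * y ^ 2 ≠ 0) := by
      rw [show x * -x - -(δ * y) * y = -(x ^ 2 - δ * y ^ 2) by ring, neg_ne_zero]
    simp only [h5]
  rw [← finsum_one, sum_nor (δ := δ) (hδ := hδ) (two_ne hF) (fun _ => (1 : ℝ)), h3, h4]
  ring

include hF in
lemma card_GL (ν : F) (hν : qc ν = -1) : (Nat.card (GL (Fin 2) F) : ℝ) =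
    (Fintype.card F : ℝ) / 2 * ((Fintype.card F + 1) * ((Fintype.card F - 1) * (Fintype.card F - 1)) +
      (Fintype.card F - 1) * ((Fintype.card F + 1) * (Fintype.card F - 1))) := by
  have hν0 : ν ≠ 0 := by
    rintro rfl
    rw [qc_zero] at hν
    norm_num at hν
  have h1 := sum_compare hF ν hν (T1 (F := F))
  rw [sum_T1_tor hF 1 one_ne_zero, sum_T1_tor hF ν hν0, hν, qc_one, sub_neg_eq_add] at h1
  rw [← finsum_one, sum_GL (fun _ => (1 : ℝ)), ← h1]
  refine Finset.sum_congr rfl fun a _ => Finset.sum_congr rfl fun e _ =>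
    Finset.sum_congr rfl fun b _ => Finset.sum_congr rfl fun c _ => ?_
  rw [ev_one]

end card

end Pool.Agent.Helper13.PGL
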