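import Pool.Agent.Helper13.PGL.Ineq
import Pool.Agent.Helper13.Alt.Av

/-!
Subgroups of order at most two of `PGL_2(F)`, `F` of odd characteristic.
-/

namespace Pool.Agent.Helper13.PGL

open Finset Matrix Pool.Agent.Helper13.Ded Matrix.ProjGenLinGroup Pool.Agent.Helper13.Alt

variable {F : Type*} [Field F] [Fintype F] [DecidableEq F]

/-- value at the class of trace zero elements with discriminant `D` -/
noncomputable def RR (θ : GL (Fin 2) F → ℝ) (D : F) : ℝ := val θ 0 (-D)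

section RR

variable {θ : GL (Fin 2) F → ℝ} (hc : ∀ g h, θ (h * g * h⁻¹) = θ g)
  (hz : ∀ (u : Fˣ) g, θ (GeneralLinearGroup.scalar (Fin 2) u * g) = θ g)

omit [Fintype F] [DecidableEq F] in
lemma RR_zero : RR θ 0 = 0 := by
  unfold RR val
  simp

include hc hz in
lemma RR_of_sq {D : F} (hD : D ≠ 0) (hq : qc D = 1) : RR θ D = RR θ 1 := by
  unfold qc at hq
  have h1 : quadraticChar F D = 1 := by exact_mod_cast hq
  rw [quadraticChar_one_iff_isSquare hD] at h1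
  obtain ⟨c, hc'⟩ := h1
  have hc0 : c ≠ 0 := by
    rintro rfl
    apply hD
    rw [hc']
    ring
  have h2 := val_sq hc hz 1 c one_ne_zero hc0
  unfold RR
  rw [← h2, hc']
  congr 1
  ring

include hc hz in
lemma RR_of_nsq {D ν : F} (hD : D ≠ 0) (hq : qc D = -1) (hν0 : ν ≠ 0) (hν : qc ν = -1) :
    RR θ D = RR θ ν := by
  have h0 : qc (D * ν) = 1 := by
    rw [qc_mul, hq, hν]
    norm_num
  unfold qc at h0
  have h1 : quadraticChar F (D * ν) = 1 := by exact_mod_cast h0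
  rw [quadraticChar_one_iff_isSquare (mul_ne_zero hD hν0)] at h1
  obtain ⟨c, hc'⟩ := h1
  have hc0 : c ≠ 0 := by
    rintro rfl
    apply mul_ne_zero hD hν0
    rw [hc']
    ring
  have h2 := val_sq hc hz ν (c / ν) hν0 (div_ne_zero hc0 hν0)
  unfold RR
  rw [← h2]
  congr 1
  have : D = c * c / ν := by
    rw [← hc']
    field_simp
  rw [this]
  field_simp

include hc hz in
lemma sum_RR (hF : ringChar F ≠ 2) (ν : F) (hν0 : ν ≠ 0) (hν : qc ν = -1) : ∑ c : F, RR θ c =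
    (Fintype.card F - 1) * ((RR θ 1 + RR θ ν) / 2) := by
  have h1 : ∀ c : F, RR θ c = (T1 (0 : F) c) * ((RR θ 1 + RR θ ν) / 2) +
      qc c * ((RR θ 1 - RR θ ν) / 2) := by
    intro c
    by_cases h : c = 0
    · subst h
      rw [RR_zero, qc_zero]
      unfold T1
      simp
    · have : T1 (0 : F) c = 1 := by unfold T1; rw [if_pos h]
      rw [this]
      rcases qc_cases h with h2 | h2
      · rw [RR_of_sq hc hz h h2, h2]
        ring
      · rw [RR_of_nsq hc hz h h2 hν0 hν, h2]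
        ring
  rw [Finset.sum_congr rfl fun c _ => h1 c, Finset.sum_add_distrib, ← Finset.sum_mul,
    ← Finset.sum_mul, sum_qc hF, sum_T1]
  ring

end RR

section main

variable (hF : ringChar F ≠ 2) {ϑ : Matrix.ProjGenLinGroup (Fin 2) F → ℝ} (hϑ : HP ϑ)

instance : Finite (Matrix.ProjGenLinGroup (Fin 2) F) :=
  Finite.of_surjective _ (mk_surjective (n := Fin 2) (R := F))

include hF in
lemma three_le_card : (3 : ℝ) ≤ Fintype.card F := by
  have h1 : 1 < Fintype.card F := Fintype.one_lt_card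
  have h2 : Fintype.card F ≠ 2 := by
    intro h
    have := FiniteField.odd_card_of_char_ne_two hF
    rw [h] at this
    norm_num at this
  have : 3 ≤ Fintype.card F := by omega
  exact_mod_cast this

include hϑ in
lemma hcϑ : ∀ g h : GL (Fin 2) F, ϑ (mk (h * g * h⁻¹)) = ϑ (mk g) := by
  intro g h
  rw [map_mul, map_mul, map_inv]
  exact hϑ.conj _ _

omit [Fintype F] [DecidableEq F] in
lemma hzϑ : ∀ (u : Fˣ) (g : GL (Fin 2) F),
    ϑ (mk (GeneralLinearGroup.scalar (Fin 2) u * g)) = ϑ (mk g) := by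
  intro u g
  rw [map_mul, mk_scalar, one_mul]

/-- average over the torus -/
noncomputable def AT (ϑ : Matrix.ProjGenLinGroup (Fin 2) F → ℝ) (δ : F) (hδ : δ ≠ 0) : ℝ :=
  av (fun g : tor δ hδ => ϑ (mk (g : GL (Fin 2) F)))

include hF hϑ in
lemma sum_eq_AT (δ : F) (hδ : δ ≠ 0) :
    (∑ x : F, ∑ y : F, ev (fun g : GL (Fin 2) F => ϑ (mk g)) x (δ * y) y x) =
      ((Fintype.card F - qc δ) * (Fintype.card F - 1)) * AT ϑ δ hδ := by
  rw [← card_tor hF δ hδ, AT, av, sum_tor (δ := δ) (hδ := hδ) (fun g : GL (Fin 2) F => ϑ (mk g))]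
  have : (Nat.card (tor δ hδ) : ℝ) ≠ 0 := by exact_mod_cast Nat.card_pos.ne'
  field_simp

include hF hϑ in
/-- the average over the group is at most the mean of the averages over the two tori -/
lemma av_le_half (ν : F) (hν0 : ν ≠ 0) (hν : qc ν = -1) :
    av ϑ ≤ (AT ϑ 1 one_ne_zero + AT ϑ ν hν0) / 2 := by
  have h0 : av ϑ = av (fun g : GL (Fin 2) F => ϑ (mk g)) :=
    (av_comp_surj mk mk_surjective ϑ).symm
  set θ : GL (Fin 2) F → ℝ := fun g => ϑ (mk g) with hθ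
  have hc := hcϑ hϑ
  have hz : ∀ (u : Fˣ) (g : GL (Fin 2) F),
    θ (GeneralLinearGroup.scalar (Fin 2) u * g) = θ g := hzϑ
  have e1 := sum_ev_GL hc hz
  have e2 := sum_ev_tor hc hz 1 one_ne_zero
  have e3 := sum_ev_tor hc hz ν hν0
  have e4 := sum_compare hF ν hν (val θ)
  rw [sum_eq_AT hF hϑ 1 one_ne_zero] at e2
  rw [sum_eq_AT hF hϑ ν hν0] at e3
  rw [e4] at e1
  rw [qc_one] at e2
  rw [hν, sub_neg_eq_add] at e3
  set σ := ∑ a : F, cor θ a with hσ
  have hσ0 : 0 ≤ σ := by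
    refine Finset.sum_nonneg fun a _ => ?_
    unfold cor
    split_ifs with h
    · have h1 : val θ (2 * a) (a ^ 2) ≤ θ 1 := by
        unfold val
        rw [dif_pos (pow_ne_zero 2 h)]
        have := hϑ.le_one (mk (cmp (2 * a) (a ^ 2) (pow_ne_zero 2 h)))
        show ϑ (mk _) ≤ ϑ (mk 1)
        rw [map_one]
        exact this
      linarith
    · exact le_rfl
  set S1 := ∑ x : F, ∑ y : F, val θ (2 * x) (x ^ 2 - 1 * y ^ 2)
  set S2 := ∑ x : F, ∑ y : F, val θ (2 * x) (x ^ 2 - ν * y ^ 2)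
  set q : ℝ := (Fintype.card F : ℝ) with hq
  have hq3 : 3 ≤ q := three_le_card hF
  rw [h0, av, sum_GL, e1, card_GL hF ν hν]
  set A1 := AT ϑ 1 one_ne_zero
  set A2 := AT ϑ ν hν0
  have hS1 : S1 = (q - 1) * (q - 1) * A1 - σ := by linarith
  have hS2 : S2 = (q + 1) * (q - 1) * A2 - σ := by linarith
  rw [hS1, hS2]
  have hpos : 0 < q / 2 * ((q + 1) * ((q - 1) * (q - 1)) + (q - 1) * ((q + 1) * (q - 1))) := by
    have : 0 < q - 1 := by linarith
    positivity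
  rw [div_le_iff₀ hpos]
  have key : q / 2 * ((q + 1) * ((q - 1) * (q - 1) * A1 - σ) + (q - 1) * ((q + 1) * (q - 1) * A2 - σ)) + σ
      = (A1 + A2) / 2 * (q / 2 * ((q + 1) * ((q - 1) * (q - 1)) + (q - 1) * ((q + 1) * (q - 1))))
        - (q ^ 2 - 1) * σ := by ring
  rw [key]
  have : 0 ≤ (q ^ 2 - 1) * σ := mul_nonneg (by nlinarith) hσ0
  linarith

include hF hϑ in
lemma av_nor (δ : F) (hδ : δ ≠ 0) (ν : F) (hν0 : ν ≠ 0) (hν : qc ν = -1) :
    av (fun g : nor δ hδ => ϑ (mk (g : GL (Fin 2) F))) = AT ϑ δ hδ / 2 +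
      (RR (fun g : GL (Fin 2) F => ϑ (mk g)) 1 + RR (fun g : GL (Fin 2) F => ϑ (mk g)) ν) / 4 := by
  have hc := hcϑ hϑ
  have hz : ∀ (u : Fˣ) (g : GL (Fin 2) F),
    ϑ (mk (GeneralLinearGroup.scalar (Fin 2) u * g)) = ϑ (mk g) := hzϑ
  rw [av, card_nor hF δ hδ, sum_nor (δ := δ) (hδ := hδ) (two_ne hF)
    (fun g : GL (Fin 2) F => ϑ (mk g)), sum_eq_AT hF hϑ δ hδ,
    sum_ev_ref hc hz (two_ne hF) δ]
  have h1 := sum_norm hF δ hδ (RR (fun g : GL (Fin 2) F => ϑ (mk g)))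
  rw [RR_zero, sum_RR hc hz hF ν hν0 hν] at h1
  have h2 : ∑ x : F, ∑ y : F, val (fun g : GL (Fin 2) F => ϑ (mk g)) 0 (-(x ^ 2 - δ * y ^ 2)) =
      ∑ x : F, ∑ y : F, RR (fun g : GL (Fin 2) F => ϑ (mk g)) (x ^ 2 - δ * y ^ 2) := rfl
  rw [h2, h1]
  have hq3 := three_le_card hF
  have h3 : (Fintype.card F : ℝ) - qc δ ≠ 0 := by
    rcases qc_cases hδ with h | h <;> rw [h] <;> intro hh <;> linarith
  have h4 : (Fintype.card F : ℝ) - 1 ≠ 0 := by
    intro hh; linarith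
  field_simp
  ring

/-- averages over images of solvable groups -/
lemma av_map {P : Type*} [Group P] [Finite P] [Group.IsSolvable P]
    (f : P →* Matrix.ProjGenLinGroup (Fin 2) F) {ϑ : Matrix.ProjGenLinGroup (Fin 2) F → ℝ}
    (hϑ : HP ϑ) {K : Type*} [Group K] [Finite K] (φ : K →* f.range) :
    av (fun p => ϑ (f p)) ≤ av (fun k => ϑ (φ k)) := by
  have h1 : Group.IsSolvable f.range :=
    Group.isSolvable_of_surjective (f := f.rangeRestrict) f.rangeRestrict_surjective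
  have h2 : HP (fun x : f.range => ϑ x) := hϑ.comp f.range.subtype
  have h3 := av_le_comp h2 φ
  have h4 : av (fun p => ϑ (f p)) = av (fun x : f.range => ϑ x) :=
    av_comp_surj f.rangeRestrict f.rangeRestrict_surjective (fun x : f.range => ϑ x)
  rw [h4]
  exact h3

lemma mk_al_sq (δ : F) (hδ : δ ≠ 0) :
    (mk (al δ hδ) : Matrix.ProjGenLinGroup (Fin 2) F) * mk (al δ hδ) = 1 := by
  rw [← map_mul, al, mk4_mul]
  have h1 := mk_scalar (n := Fin 2) (R := F) (Units.mk0 δ hδ)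
  rw [scalar_eq_mk4] at h1
  rw [← h1]
  congr 1
  rw [mk4_eq_iff]
  simp

/-- reflection in the normaliser -/
def refl (δ x y : F) (h : x ^ 2 - δ * y ^ 2 ≠ 0) : GL (Fin 2) F :=
  mk4 x (-(δ * y)) y (-x) (by
    rw [show x * -x - -(δ * y) * y = -(x ^ 2 - δ * y ^ 2) by ring, neg_ne_zero]
    exact h)

lemma mk_refl_sq (δ x y : F) (h : x ^ 2 - δ * y ^ 2 ≠ 0) :
    (mk (refl δ x y h) : Matrix.ProjGenLinGroup (Fin 2) F) * mk (refl δ x y h) = 1 := by
  rw [← map_mul, refl, mk4_mul]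
  have h1 := mk_scalar (n := Fin 2) (R := F) (Units.mk0 _ h)
  rw [scalar_eq_mk4] at h1
  rw [← h1]
  congr 1
  rw [mk4_eq_iff, Units.val_mk0]
  refine ⟨by ring, by ring, by ring, by ring⟩

lemma mk_refl_comm (δ : F) (hδ : δ ≠ 0) (x y : F) (h : x ^ 2 - δ * y ^ 2 ≠ 0) :
    (mk (refl δ x y h) : Matrix.ProjGenLinGroup (Fin 2) F) * mk (al δ hδ) =
      mk (al δ hδ) * mk (refl δ x y h) := by
  rw [← map_mul, ← map_mul, mk_eq_mk_iff]
  refine ⟨-1, ?_⟩
  rw [al, refl, mk4_mul, mk4_mul, scalar_eq_mk4, mk4_mul, mk4_eq_iff]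
  simp only [Units.val_neg, Units.val_one]
  refine ⟨by ring, by ring, by ring, by ring⟩

include hϑ in
lemma val_al (δ : F) (hδ : δ ≠ 0) : ϑ (mk (al δ hδ)) =
    RR (fun g : GL (Fin 2) F => ϑ (mk g)) δ := by
  have h1 := eq_val (θ := fun g : GL (Fin 2) F => ϑ (mk g)) (hcϑ hϑ) 0 δ 1 0 (by simpa using hδ) (Or.inl hδ)
  show ϑ (mk (mk4 0 δ 1 0 _)) = _
  rw [h1, RR]
  congr 1
  · ring
  · ring

include hF hϑ in
lemma val_refl (δ x y : F) (h : x ^ 2 - δ * y ^ 2 ≠ 0) : ϑ (mk (refl δ x y h)) =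
    RR (fun g : GL (Fin 2) F => ϑ (mk g)) (x ^ 2 - δ * y ^ 2) := by
  have h2 := two_ne hF
  have h1 := eq_val (θ := fun g : GL (Fin 2) F => ϑ (mk g)) (hcϑ hϑ) x (-(δ * y)) y (-x) (by
    rw [show x * -x - -(δ * y) * y = -(x ^ 2 - δ * y ^ 2) by ring, neg_ne_zero]
    exact h) (by
      by_contra hcon
      push Not at hcon
      obtain ⟨-, hy, hx⟩ := hcon
      have hx0 : x = 0 := by
        have : 2 * x = 0 := by linear_combination hx
        exact (mul_eq_zero.1 this).resolve_left h2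
      apply h
      rw [hx0, hy]
      ring)
  show ϑ (mk (mk4 _ _ _ _ _)) = _
  rw [h1, RR]
  congr 1
  · ring
  · ring

include hF hϑ in
lemma val_refl_al (δ : F) (hδ : δ ≠ 0) (x y : F) (h : x ^ 2 - δ * y ^ 2 ≠ 0) :
    ϑ (mk (refl δ x y h) * mk (al δ hδ)) =
    RR (fun g : GL (Fin 2) F => ϑ (mk g)) (-(δ * (x ^ 2 - δ * y ^ 2))) := by
  have h2 := two_ne hF
  rw [← map_mul, al, refl, mk4_mul]
  have h1 := eq_val (θ := fun g : GL (Fin 2) F => ϑ (mk g)) (hcϑ hϑ) (x * 0 + -(δ * y) * 1) (x * δ + -(δ * y) * 0) (y * 0 + -x * 1)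
    (y * δ + -x * 0) (by
      rw [show (x * 0 + -(δ * y) * 1) * (y * δ + -x * 0) -
        (x * δ + -(δ * y) * 0) * (y * 0 + -x * 1) = δ * (x ^ 2 - δ * y ^ 2) by ring]
      exact mul_ne_zero hδ h) (by
      by_contra hcon
      push Not at hcon
      obtain ⟨hx, -, hy⟩ := hcon
      have hx0 : x = 0 := by
        have : δ * x = 0 := by linear_combination hx
        exact (mul_eq_zero.1 this).resolve_left hδ
      have hy0 : y = 0 := by
        have : 2 * (δ * y) = 0 := by linear_combination -hy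
        exact (mul_eq_zero.1 ((mul_eq_zero.1 this).resolve_left h2)).resolve_left hδ
      apply h
      rw [hx0, hy0]
      ring)
  rw [h1, RR]
  congr 1
  · ring
  · ring

include hF hϑ in
/-- comparison of the torus with its involution -/
lemma AT_le (δ : F) (hδ : δ ≠ 0) : AT ϑ δ hδ ≤
    (ϑ 1 + RR (fun g : GL (Fin 2) F => ϑ (mk g)) δ) / 2 := by
  let f : tor δ hδ →* Matrix.ProjGenLinGroup (Fin 2) F := mk.comp (tor δ hδ).subtype
  have hal : al δ hδ ∈ tor δ hδ := by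
    rw [al, mem_tor]
    exact ⟨by ring, rfl⟩
  let a : f.range := ⟨mk (al δ hδ), ⟨⟨al δ hδ, hal⟩, rfl⟩⟩
  have ha : a ^ 2 = 1 := by
    rw [pow_two]
    exact Subtype.ext (mk_al_sq δ hδ)
  obtain ⟨φ, hφ⟩ := exists_zmodHom a 2 ha
  have h1 := av_map f hϑ φ
  refine h1.trans (le_of_eq ?_)
  rw [av_eq_sum, ← Multiplicative.ofAdd.sum_comp]
  have h0 : φ (Multiplicative.ofAdd (0 : ZMod 2)) = 1 := by
    rw [ofAdd_zero, map_one]
  have h2 : φ (Multiplicative.ofAdd (1 : ZMod 2)) = a := by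
    have := hφ 1
    rwa [zpow_one, Int.cast_one] at this
  have h3 : ∑ i : ZMod 2, ϑ (φ (Multiplicative.ofAdd i)) = ϑ 1 + ϑ (mk (al δ hδ)) := by
    have h4 := Fin.sum_univ_two (M := ℝ) (fun i : ZMod 2 => ϑ (φ (Multiplicative.ofAdd i)))
    refine h4.trans ?_
    show ϑ (φ (Multiplicative.ofAdd (0 : ZMod 2))) + ϑ (φ (Multiplicative.ofAdd (1 : ZMod 2))) = _
    rw [h0, h2]
    rfl
  rw [h3, val_al hϑ]
  simp

include hF hϑ in
/-- comparison of the normaliser with a four group -/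
lemma nor_le (δ : F) (hδ : δ ≠ 0) (x y : F) (h : x ^ 2 - δ * y ^ 2 ≠ 0) :
    av (fun g : nor δ hδ => ϑ (mk (g : GL (Fin 2) F))) ≤
    (ϑ 1 + RR (fun g : GL (Fin 2) F => ϑ (mk g)) δ +
      RR (fun g : GL (Fin 2) F => ϑ (mk g)) (x ^ 2 - δ * y ^ 2) +
      RR (fun g : GL (Fin 2) F => ϑ (mk g)) (-(δ * (x ^ 2 - δ * y ^ 2)))) / 4 := by
  have hsol : Group.IsSolvable (nor δ hδ) := solv_nor
  let f : nor δ hδ →* Matrix.ProjGenLinGroup (Fin 2) F := mk.comp (nor δ hδ).subtype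
  have hal : al δ hδ ∈ nor δ hδ := by
    rw [al, mem_nor]
    exact Or.inl ⟨by ring, rfl⟩
  have hrf : refl δ x y h ∈ nor δ hδ := by
    rw [refl, mem_nor]
    exact Or.inr ⟨rfl, rfl⟩
  let a : f.range := ⟨mk (al δ hδ), ⟨⟨al δ hδ, hal⟩, rfl⟩⟩
  let r : f.range := ⟨mk (refl δ x y h), ⟨⟨refl δ x y h, hrf⟩, rfl⟩⟩
  have ha : a * a = 1 := Subtype.ext (mk_al_sq δ hδ)
  have hr : r * r = 1 := Subtype.ext (mk_refl_sq δ x y h)
  have hra : r * a = a * r := Subtype.ext (mk_refl_comm δ hδ x y h)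
  obtain ⟨φ, hφ1, hφ2⟩ := exists_dihHom a r 2 (by rw [pow_two, ha]) hr (by
    rw [hra, mul_assoc, hr, mul_one]
    exact eq_inv_of_mul_eq_one_left ha)
  have h1 := av_map f hϑ φ
  refine h1.trans (le_of_eq ?_)
  rw [av_eq_sum, sum_dihedral]
  have e1 : φ (DihedralGroup.r (0 : ZMod 2)) = 1 := by
    have := hφ1 0
    rwa [zpow_zero, Int.cast_zero] at this
  have e2 : φ (DihedralGroup.r (1 : ZMod 2)) = a := by
    have := hφ1 1
    rwa [zpow_one, Int.cast_one] at this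
  have e3 : φ (DihedralGroup.sr (0 : ZMod 2)) = r := by
    have := hφ2 0
    rwa [zpow_zero, Int.cast_zero, mul_one] at this
  have e4 : φ (DihedralGroup.sr (1 : ZMod 2)) = r * a := by
    have := hφ2 1
    rwa [zpow_one, Int.cast_one] at this
  have h3 : ∀ g : ZMod 2 → ℝ, ∑ i : ZMod 2, g i = g 0 + g 1 := by
    intro g
    exact Fin.sum_univ_two (M := ℝ) g
  rw [h3, h3, e1, e2, e3, e4]
  have h4 : ϑ (mk (refl δ x y h) * mk (al δ hδ)) = _ := val_refl_al hF hϑ δ hδ x y h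
  have h5 : ϑ (mk (refl δ x y h)) = _ := val_refl hF hϑ δ x y h
  have h6 : ϑ (mk (al δ hδ)) = _ := val_al hϑ δ hδ
  have e5 : (((r * a : f.range)) : Matrix.ProjGenLinGroup (Fin 2) F) =
    mk (refl δ x y h) * mk (al δ hδ) := rfl
  have e6 : ((a : f.range) : Matrix.ProjGenLinGroup (Fin 2) F) = mk (al δ hδ) := rfl
  have e7 : ((r : f.range) : Matrix.ProjGenLinGroup (Fin 2) F) = mk (refl δ x y h) := rfl
  rw [e5, e6, e7, h4, h5, h6]
  have hcard : Fintype.card (DihedralGroup 2) = 4 := by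
    rw [DihedralGroup.card]
  rw [hcard]
  simp only [OneMemClass.coe_one]
  push_cast
  ring

end main

end Pool.Agent.Helper13.PGL
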