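import Pool.Agent.Helper13.PGL.Sums
import Pool.Agent.Helper13.Alt.Dihedral

/-!
Two by two matrices.
-/

namespace Pool.Agent.Helper13.PGL

open Finset Matrix Pool.Agent.Helper13.Ded

variable {F : Type*} [Field F]

/-- invertible matrix with given entries -/
def mk4 (a b c e : F) (h : a * e - b * c ≠ 0) : GL (Fin 2) F :=
  GeneralLinearGroup.mkOfDetNeZero !![a, b; c, e] (by rw [det_fin_two_of]; exact h)

lemma mk4_val (a b c e : F) (h : a * e - b * c ≠ 0) : (mk4 a b c e h).1 = !![a, b; c, e] := rfl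

lemma mk4_eq_iff {a b c e a' b' c' e' : F} {h : a * e - b * c ≠ 0} {h' : a' * e' - b' * c' ≠ 0} :
    mk4 a b c e h = mk4 a' b' c' e' h' ↔ a = a' ∧ b = b' ∧ c = c' ∧ e = e' := by
  constructor
  · intro hh
    have h1 : !![a, b; c, e] = !![a', b'; c', e'] := congrArg Units.val hh
    have e1 := congrFun (congrFun h1 0) 0
    have e2 := congrFun (congrFun h1 0) 1
    have e3 := congrFun (congrFun h1 1) 0
    have e4 := congrFun (congrFun h1 1) 1
    exact ⟨e1, e2, e3, e4⟩
  · rintro ⟨rfl, rfl, rfl, rfl⟩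
    rfl

lemma exists_mk4 (g : GL (Fin 2) F) : ∃ (a b c e : F) (h : a * e - b * c ≠ 0),
    g = mk4 a b c e h := by
  have h1 : g.1.det ≠ 0 := by
    have := g.det.ne_zero
    exact this
  rw [det_fin_two] at h1
  refine ⟨g.1 0 0, g.1 0 1, g.1 1 0, g.1 1 1, h1, ?_⟩
  refine Units.ext ?_
  rw [mk4_val]
  exact eta_fin_two g.1

lemma mk4_mul (a b c e a' b' c' e' : F) (h : a * e - b * c ≠ 0) (h' : a' * e' - b' * c' ≠ 0) :
    mk4 a b c e h * mk4 a' b' c' e' h' =
      mk4 (a * a' + b * c') (a * b' + b * e') (c * a' + e * c') (c * b' + e * e') (by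
        have : (a * a' + b * c') * (c * b' + e * e') - (a * b' + b * e') * (c * a' + e * c') =
          (a * e - b * c) * (a' * e' - b' * c') := by ring
        rw [this]
        exact mul_ne_zero h h') := by
  refine Units.ext ?_
  show (mk4 a b c e h).1 * (mk4 a' b' c' e' h').1 = _
  rw [mk4_val, mk4_val, mk4_val]
  ext i j
  fin_cases i <;> fin_cases j <;> simp [Matrix.mul_apply, Fin.sum_univ_two]

lemma one_eq_mk4 : (1 : GL (Fin 2) F) = mk4 1 0 0 1 (by simp) := by
  refine Units.ext ?_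
  rw [mk4_val]
  exact one_fin_two

lemma scalar_eq_mk4 (u : Fˣ) : (GeneralLinearGroup.scalar (Fin 2) u : GL (Fin 2) F) =
    mk4 (u : F) 0 0 u (by simp) := by
  refine Units.ext ?_
  rw [mk4_val]
  ext i j
  fin_cases i <;> fin_cases j <;> simp

/-- the companion matrix -/
def cmp (t d : F) (h : d ≠ 0) : GL (Fin 2) F := mk4 0 (-d) 1 t (by simpa using h)

lemma conj_cmp (a b c e : F) (h : a * e - b * c ≠ 0) (hns : b ≠ 0 ∨ c ≠ 0 ∨ a ≠ e) :
    ∃ p : GL (Fin 2) F, mk4 a b c e h = p * cmp (a + e) (a * e - b * c) h * p⁻¹ := by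
  by_cases hc : c = 0
  · by_cases hb : b = 0
    · have hae : a ≠ e := by
        rcases hns with h1 | h1 | h1
        · exact absurd hb h1
        · exact absurd hc h1
        · exact h1
      refine ⟨mk4 1 a 1 e (by
        intro h1
        apply hae
        have : a = e := by linear_combination -h1
        exact this), ?_⟩
      rw [eq_mul_inv_iff_mul_eq, cmp, mk4_mul, mk4_mul, mk4_eq_iff]
      subst hb hc
      refine ⟨by ring, by ring, by ring, by ring⟩
    · refine ⟨mk4 0 b 1 e (by simpa using hb), ?_⟩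
      rw [eq_mul_inv_iff_mul_eq, cmp, mk4_mul, mk4_mul, mk4_eq_iff]
      refine ⟨by ring, by ring, by ring, by ring⟩
  · refine ⟨mk4 1 a 0 c (by simpa using hc), ?_⟩
    rw [eq_mul_inv_iff_mul_eq, cmp, mk4_mul, mk4_mul, mk4_eq_iff]
    refine ⟨by ring, by ring, by ring, by ring⟩

open Classical in
/-- value at matrices with trace `t` and determinant `d` -/
noncomputable def val (θ : GL (Fin 2) F → ℝ) (t d : F) : ℝ :=
  if h : d ≠ 0 then θ (cmp t d h) else 0

section cls

variable {θ : GL (Fin 2) F → ℝ} (hc : ∀ g h, θ (h * g * h⁻¹) = θ g)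
  (hz : ∀ (u : Fˣ) g, θ (GeneralLinearGroup.scalar (Fin 2) u * g) = θ g)

include hc in
lemma eq_val (a b c e : F) (h : a * e - b * c ≠ 0) (hns : b ≠ 0 ∨ c ≠ 0 ∨ a ≠ e) :
    θ (mk4 a b c e h) = val θ (a + e) (a * e - b * c) := by
  obtain ⟨p, hp⟩ := conj_cmp a b c e h hns
  rw [hp, hc]
  unfold val
  rw [dif_pos h]

include hz in
lemma eq_one (x : F) (h : x * x - 0 * 0 ≠ 0) : θ (mk4 x 0 0 x h) = θ 1 := by
  have hx : x ≠ 0 := by
    rintro rfl
    simp at h
  have h1 := hz (Units.mk0 x hx) 1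
  rw [scalar_eq_mk4, mul_one] at h1
  exact h1

include hc hz in
lemma val_sq (D c : F) (hD : D ≠ 0) (hcc : c ≠ 0) : val θ 0 (-(D * c ^ 2)) = val θ 0 (-D) := by
  have h1 := hz (Units.mk0 c hcc) (cmp 0 (-D) (neg_ne_zero.2 hD))
  have h2 : val θ 0 (-D) = θ (cmp 0 (-D) (neg_ne_zero.2 hD)) := by
    unfold val
    rw [dif_pos (neg_ne_zero.2 hD)]
  rw [h2, ← h1, scalar_eq_mk4, cmp, mk4_mul, eq_val hc]
  · congr 1
    · simp
    · simp only [Units.val_mk0]
      ring
  · right
    left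
    simpa using hcc

end cls

end Pool.Agent.Helper13.PGL
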