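import Mathlib

/-!
Sums over a finite field of odd characteristic.
-/

namespace Pool.Agent.Helper13.PGL

open Finset

variable {F : Type*} [Field F] [Fintype F] [DecidableEq F]

/-- quadratic character, real valued -/
noncomputable def qc (a : F) : ℝ := ((quadraticChar F a : ℤ) : ℝ)

lemma qc_mul (a b : F) : qc (a * b) = qc a * qc b := by
  unfold qc
  rw [map_mul, Int.cast_mul]

lemma qc_zero : qc (0 : F) = 0 := by
  unfold qc
  simp

lemma qc_one : qc (1 : F) = 1 := by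
  unfold qc
  simp

lemma qc_sq {a : F} (ha : a ≠ 0) : qc a * qc a = 1 := by
  unfold qc
  have := quadraticChar_sq_one ha
  rw [← Int.cast_mul, ← pow_two, this]
  simp

lemma qc_cases {a : F} (ha : a ≠ 0) : qc a = 1 ∨ qc a = -1 := by
  unfold qc
  rcases quadraticChar_dichotomy ha with h | h <;> rw [h] <;> simp

variable (hF : ringChar F ≠ 2)
include hF

lemma sum_qc : ∑ a : F, qc a = 0 := by
  unfold qc
  rw [← Int.cast_sum, quadraticChar_sum_zero hF]
  simp

omit [Fintype F] [DecidableEq F] in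
lemma two_ne : (2 : F) ≠ 0 := Ring.two_ne_zero hF

/-- sums over squares -/
lemma sum_sq (g : F → ℝ) : ∑ y : F, g (y ^ 2) = ∑ c : F, (1 + qc c) * g c := by
  classical
  rw [← Finset.sum_fiberwise univ (fun y : F => y ^ 2) (fun y => g (y ^ 2))]
  refine Finset.sum_congr rfl fun c _ => ?_
  have h1 : ∑ y ∈ univ.filter (fun y : F => y ^ 2 = c), g (y ^ 2)
      = ∑ y ∈ univ.filter (fun y : F => y ^ 2 = c), g c :=
    Finset.sum_congr rfl fun y hy => by rw [(Finset.mem_filter.mp hy).2]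
  rw [h1, Finset.sum_const, nsmul_eq_mul]
  congr 1
  have h2 := quadraticChar_card_sqrts hF c
  have h3 : ({x : F | x ^ 2 = c} : Set F).toFinset = univ.filter (fun y : F => y ^ 2 = c) := by
    ext y
    simp
  rw [h3] at h2
  unfold qc
  have h4 : (((univ.filter (fun y : F => y ^ 2 = c)).card : ℤ) : ℝ) =
      ((quadraticChar F c + 1 : ℤ) : ℝ) := by rw [h2]
  push_cast at h4
  rw [h4]
  ring

lemma sum_sq' (δ : F) (hδ : δ ≠ 0) (g : F → ℝ) :
    ∑ y : F, g (δ * y ^ 2) = ∑ c : F, (1 + qc (δ * c)) * g c := by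
  rw [sum_sq hF (fun c => g (δ * c))]
  rw [← _root_.Equiv.sum_comp (Equiv.mulLeft₀ δ hδ) (fun c => (1 + qc (δ * c)) * g c)]
  refine Finset.sum_congr rfl fun c _ => ?_
  show (1 + qc c) * g (δ * c) = (1 + qc (δ * (δ * c))) * g (δ * c)
  rw [qc_mul, qc_mul, ← mul_assoc, qc_sq hδ, one_mul]

omit hF in
lemma sum_mul_pairs (g : F → ℝ) : ∑ b : F, ∑ c : F, g (b * c) =
    (Fintype.card F - 1) * ∑ c : F, g c + Fintype.card F * g 0 := by
  rw [← Finset.sum_erase_add _ _ (Finset.mem_univ (0 : F))]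
  have h1 : ∑ b ∈ univ.erase (0 : F), ∑ c : F, g (b * c) =
      ∑ b ∈ univ.erase (0 : F), ∑ c : F, g c := by
    refine Finset.sum_congr rfl fun b hb => ?_
    exact _root_.Equiv.sum_comp (Equiv.mulLeft₀ b (Finset.ne_of_mem_erase hb)) g
  rw [h1, Finset.sum_const, Finset.card_erase_of_mem (Finset.mem_univ _), Finset.card_univ,
    nsmul_eq_mul, Nat.cast_sub (Nat.one_le_iff_ne_zero.2 Fintype.card_ne_zero)]
  simp

lemma sum_torus (δ : F) (hδ : δ ≠ 0) (T : F → F → ℝ) :
    ∑ x : F, ∑ y : F, T (2 * x) (x ^ 2 - δ * y ^ 2) =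
      ∑ x : F, ∑ c : F, (1 + qc (δ * c)) * T (2 * x) (x ^ 2 - c) :=
  Finset.sum_congr rfl fun x _ => sum_sq' hF δ hδ (fun c => T (2 * x) (x ^ 2 - c))

/-- the change of variables `a = x + z`, `e = x - z` -/
lemma sum_pair (f : F → F → ℝ) : ∑ a : F, ∑ e : F, f a e = ∑ x : F, ∑ z : F, f (x + z) (x - z) := by
  have h2 := two_ne hF
  rw [← Finset.sum_product', ← Finset.sum_product']
  symm
  refine Finset.sum_bij' (fun p _ => (p.1 + p.2, p.1 - p.2))
    (fun p _ => ((p.1 + p.2) / 2, (p.1 - p.2) / 2)) ?_ ?_ ?_ ?_ ?_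
  · intro p _; simp
  · intro p _; simp
  · rintro ⟨x, z⟩ _
    ext
    · field_simp
      ring
    · field_simp
      ring
  · rintro ⟨a, e⟩ _
    ext
    · field_simp
      ring
    · field_simp
      ring
  · intro p _; rfl

lemma sum_matrices (T : F → F → ℝ) :
    ∑ a : F, ∑ e : F, ∑ b : F, ∑ c : F, T (a + e) (a * e - b * c) =
      ∑ x : F, ∑ c : F, ((Fintype.card F : ℝ) ^ 2 + Fintype.card F * qc c) *
        T (2 * x) (x ^ 2 - c) := by
  rw [sum_pair hF (fun a e => ∑ b : F, ∑ c : F, T (a + e) (a * e - b * c))]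
  refine Finset.sum_congr rfl fun x _ => ?_
  have h1 : ∀ z : F, ∑ b : F, ∑ c : F, T (x + z + (x - z)) ((x + z) * (x - z) - b * c) =
      (Fintype.card F - 1) * ∑ c : F, T (2 * x) (x ^ 2 - c) +
        Fintype.card F * T (2 * x) (x ^ 2 - z ^ 2) := by
    intro z
    have h2 := sum_mul_pairs (fun m : F => T (2 * x) (x ^ 2 - z ^ 2 - m))
    have h3 : ∑ c : F, T (2 * x) (x ^ 2 - z ^ 2 - c) = ∑ c : F, T (2 * x) (x ^ 2 - c) := by
      rw [← _root_.Equiv.sum_comp (Equiv.addRight (z ^ 2)) (fun c => T (2 * x) (x ^ 2 - c))]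
      refine Finset.sum_congr rfl fun c _ => ?_
      congr 1
      simp only [Equiv.coe_addRight]
      ring
    rw [h3, sub_zero] at h2
    rw [← h2]
    refine Finset.sum_congr rfl fun b _ => Finset.sum_congr rfl fun c _ => ?_
    congr 1
    · ring
    · ring
  rw [Finset.sum_congr rfl fun z _ => h1 z, Finset.sum_add_distrib, Finset.sum_const,
    Finset.card_univ, nsmul_eq_mul, ← Finset.mul_sum,
    sum_sq hF (fun c => T (2 * x) (x ^ 2 - c))]
  have h4 : ∑ c : F, ((Fintype.card F : ℝ) ^ 2 + Fintype.card F * qc c) * T (2 * x) (x ^ 2 - c) =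
      Fintype.card F * ((Fintype.card F - 1) * ∑ c : F, T (2 * x) (x ^ 2 - c)) +
      Fintype.card F * ∑ c : F, (1 + qc c) * T (2 * x) (x ^ 2 - c) := by
    rw [Finset.mul_sum, Finset.mul_sum, Finset.mul_sum, ← Finset.sum_add_distrib]
    refine Finset.sum_congr rfl fun c _ => ?_
    ring
  rw [h4]

/-- sums of functions of `x ^ 2 - δ y ^ 2` -/
lemma sum_norm (δ : F) (hδ : δ ≠ 0) (g : F → ℝ) :
    ∑ x : F, ∑ y : F, g (x ^ 2 - δ * y ^ 2) =
      (Fintype.card F - qc δ) * ∑ c : F, g c + qc δ * Fintype.card F * g 0 := by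
  have key : ∀ δ : F, δ ≠ 0 → ∑ x : F, ∑ y : F, g (x ^ 2 - δ * y ^ 2) =
      Fintype.card F * ∑ c : F, g c + qc δ * ∑ x : F, ∑ c : F, qc c * g (x ^ 2 - c) := by
    intro δ hδ
    rw [sum_torus hF δ hδ (fun _ d => g d)]
    have h0 : (Fintype.card F : ℝ) * ∑ c : F, g c = ∑ _x : F, ∑ c : F, g c := by
      rw [Finset.sum_const, Finset.card_univ, nsmul_eq_mul]
    rw [h0, Finset.mul_sum, ← Finset.sum_add_distrib]
    refine Finset.sum_congr rfl fun x _ => ?_
    have h3 : ∑ c : F, g c = ∑ c : F, g (x ^ 2 - c) :=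
      (_root_.Equiv.sum_comp (Equiv.subLeft (x ^ 2)) g).symm
    rw [h3, Finset.mul_sum, ← Finset.sum_add_distrib]
    refine Finset.sum_congr rfl fun c _ => ?_
    rw [qc_mul]
    ring
  have h1 : ∑ x : F, ∑ y : F, g (x ^ 2 - 1 * y ^ 2) =
      (Fintype.card F - 1) * ∑ c : F, g c + Fintype.card F * g 0 := by
    rw [← sum_mul_pairs, sum_pair hF (fun b c => g (b * c))]
    refine Finset.sum_congr rfl fun x _ => Finset.sum_congr rfl fun y _ => ?_
    congr 1
    ring
  have h2 := key 1 one_ne_zero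
  rw [h1, qc_one, one_mul] at h2
  rw [key δ hδ]
  have h3 : ∑ x : F, ∑ c : F, qc c * g (x ^ 2 - c) =
      - ∑ c : F, g c + Fintype.card F * g 0 := by linarith
  rw [h3]
  ring

/-- comparison of the sum over all matrices with the sums over the two tori -/
lemma sum_compare (ν : F) (hν : qc ν = -1) (T : F → F → ℝ) :
    ∑ a : F, ∑ e : F, ∑ b : F, ∑ c : F, T (a + e) (a * e - b * c) =
      (Fintype.card F : ℝ) / 2 *
        (((Fintype.card F : ℝ) + 1) * ∑ x : F, ∑ y : F, T (2 * x) (x ^ 2 - 1 * y ^ 2) +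
          ((Fintype.card F : ℝ) - 1) * ∑ x : F, ∑ y : F, T (2 * x) (x ^ 2 - ν * y ^ 2)) := by
  have hν0 : ν ≠ 0 := by
    rintro rfl
    rw [qc_zero] at hν
    norm_num at hν
  rw [sum_matrices hF, sum_torus hF 1 one_ne_zero, sum_torus hF ν hν0]
  simp only [Finset.mul_sum]
  rw [← Finset.sum_add_distrib, Finset.mul_sum]
  refine Finset.sum_congr rfl fun x _ => ?_
  rw [← Finset.sum_add_distrib, Finset.mul_sum]
  refine Finset.sum_congr rfl fun c _ => ?_
  rw [qc_mul, qc_mul, hν, qc_one]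
  ring

end Pool.Agent.Helper13.PGL
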